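import Pool.Agent.Q99.AS.Char
import Pool.Agent.Y63.AWC.Deg
import Pool.Agent.Helper884.IC.Nec5
import Pool.Agent.Helper884.IC.Nec1
import Mathlib.GroupTheory.FiniteAbelian.Duality
import Mathlib.GroupTheory.SemidirectProduct
import Mathlib.NumberTheory.PrimesCongruentOne

/-!
# The irreducible characters of the groups of order `q Q`
-/

set_option autoImplicit false
set_option linter.unusedSectionVars false

open scoped Classical

noncomputable section

namespace Pool.Agent.Q99.RC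

open Pool.Agent.Helper884.IC
open Pool.Agent.Q90.WR (deg_pos)

section general

variable {G : Type} [Group G] [Fintype G]

theorem sum_sq : ∑ χ ∈ Irr G, χ 1 * χ 1 = (Nat.card G : ℂ) := by
  have h := B_expand (dl : G → ℂ) dl dl_class
  have h1 : ∀ χ : G → ℂ, B χ dl = (Nat.card G : ℂ)⁻¹ * χ 1 := fun χ => by
    rw [B_comm, B_dl_left]
  simp only [B_dl_left, h1] at h
  have h0 : (dl : G → ℂ) 1 = 1 := if_pos rfl
  rw [h0, mul_one] at h
  have hc := cardG_ne (G := G)
  have h2 : ∑ χ ∈ Irr G, (Nat.card G : ℂ)⁻¹ * χ 1 * ((Nat.card G : ℂ)⁻¹ * χ 1) =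
      (Nat.card G : ℂ)⁻¹ * (Nat.card G : ℂ)⁻¹ * ∑ χ ∈ Irr G, χ 1 * χ 1 := by
    rw [Finset.mul_sum]
    refine Finset.sum_congr rfl fun χ _ => ?_
    ring
  rw [h2] at h
  field_simp at h
  rw [h]
  exact Finset.sum_congr rfl fun χ _ => (sq (χ 1)).symm

theorem sum_hom {C : Type} [CommGroup C] [Finite C] [Fintype (C →* ℂˣ)] {a : C} (ha : a ≠ 1) :
    ∑ φ : C →* ℂˣ, ((φ a : ℂˣ) : ℂ) = 0 := by
  obtain ⟨φ₀, h0⟩ := CommGroup.exists_apply_ne_one_of_hasEnoughRootsOfUnity C ℂ ha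
  have h1 : ∑ φ : C →* ℂˣ, ((φ a : ℂˣ) : ℂ) = ((φ₀ a : ℂˣ) : ℂ) * ∑ φ : C →* ℂˣ, ((φ a : ℂˣ) : ℂ) := by
    rw [Finset.mul_sum]
    refine (Fintype.sum_equiv (Equiv.mulLeft φ₀) _ _ fun φ => ?_).symm
    simp
  have h2 : (((φ₀ a : ℂˣ) : ℂ) - 1) * ∑ φ : C →* ℂˣ, ((φ a : ℂˣ) : ℂ) = 0 := by
    rw [sub_mul, one_mul, ← h1, sub_self]
  rcases mul_eq_zero.1 h2 with h3 | h3
  · exact absurd (Units.ext (by simpa using sub_eq_zero.1 h3)) h0
  · exact h3

theorem deg_le_index (N : Subgroup G) (hN : ∀ a b : N, a * b = b * a) {χ : G → ℂ}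
    (h : IsIrrChar χ) {n : ℕ} (hn : χ 1 = n) : n ≤ N.index := by
  let _ : CommGroup N := { (inferInstance : Group N) with mul_comm := hN }
  let _ : Fintype (N →* ℂˣ) := Fintype.ofFinite _
  have hcl := h.isClass
  have hN0 : (Nat.card N : ℂ) ≠ 0 := cardC_ne N
  have hs : ∑ lam : N →* ℂˣ, B (indChar N lam) χ =
      (Nat.card N : ℂ)⁻¹ * ((Fintype.card (N →* ℂˣ) : ℂ) * χ 1) := by
    have h1 : ∀ lam : N →* ℂˣ, B (indChar N lam) χ =
        (Nat.card N : ℂ)⁻¹ * ∑ c : N, ((lam c : ℂˣ) : ℂ) * χ (c : G)⁻¹ := fun lam => by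
      rw [frob _ _ _ hcl, sum_lamExt N lam (fun g => χ g⁻¹)]
    simp only [h1]
    rw [← Finset.mul_sum, Finset.sum_comm]
    congr 1
    have h2 : ∀ c : N, ∑ lam : N →* ℂˣ, ((lam c : ℂˣ) : ℂ) * χ (c : G)⁻¹ =
        if c = 1 then (Fintype.card (N →* ℂˣ) : ℂ) * χ 1 else 0 := by
      intro c
      rw [← Finset.sum_mul]
      split_ifs with hc
      · subst hc
        simp
      · rw [sum_hom hc, zero_mul]
    simp only [h2]
    rw [Finset.sum_ite_eq' Finset.univ (1 : N), if_pos (Finset.mem_univ _)]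
  have hχ : χ 1 ≠ 0 := by
    obtain ⟨m, hm, e⟩ := deg_pos h
    rw [e]
    exact_mod_cast hm.ne'
  have hne : ∃ lam : N →* ℂˣ, B (indChar N lam) χ ≠ 0 := by
    by_contra hcon
    push Not at hcon
    simp only [hcon, Finset.sum_const_zero] at hs
    have h3 : (Fintype.card (N →* ℂˣ) : ℂ) ≠ 0 := by
      have : 0 < Fintype.card (N →* ℂˣ) := Fintype.card_pos
      exact_mod_cast this.ne'
    exact (mul_ne_zero (inv_ne_zero hN0) (mul_ne_zero h3 hχ)) hs.symm
  obtain ⟨lam, hlam⟩ := hne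
  have hm : ∀ ψ : G → ℂ, ∃ k : ℕ, ψ ∈ Irr G → B (indChar N lam) ψ * ψ 1 = k := by
    intro ψ
    by_cases hψ : ψ ∈ Irr G
    · obtain ⟨m, hm⟩ := mult_nat N lam (mem_Irr.1 hψ)
      obtain ⟨k, -, hk⟩ := deg_pos (mem_Irr.1 hψ)
      refine ⟨m * k, fun _ => ?_⟩
      rw [hm, hk]
      push_cast
      rfl
    · exact ⟨0, fun h => absurd h hψ⟩
  choose k hk using hm
  have he := congrFun (expand (indChar N lam) (isClass_indChar N lam)) 1
  rw [ind_one, Finset.sum_apply] at he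
  simp only [Pi.smul_apply, smul_eq_mul] at he
  rw [Finset.sum_congr rfl fun ψ hψ => hk ψ hψ] at he
  have h4 : Nat.card G = Nat.card N * ∑ ψ ∈ Irr G, k ψ := by
    have : (Nat.card G : ℂ) = Nat.card N * ((∑ ψ ∈ Irr G, k ψ : ℕ) : ℂ) := by
      rw [div_eq_iff hN0] at he
      rw [he]
      push_cast
      ring
    exact_mod_cast this
  have h5 : N.index = ∑ ψ ∈ Irr G, k ψ := by
    have h6 := N.card_mul_index
    rw [h4] at h6
    exact Nat.eq_of_mul_eq_mul_left Nat.card_pos h6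
  rw [h5]
  have h7 : n ≤ k χ := by
    obtain ⟨m, hm⟩ := mult_nat N lam h
    have h8 := hk χ (mem_Irr.2 h)
    rw [hm, hn] at h8
    have h9 : m * n = k χ := by exact_mod_cast h8
    have h10 : m ≠ 0 := by
      rintro rfl
      exact hlam (by rw [hm]; simp)
    rw [← h9]
    exact Nat.le_mul_of_pos_left n (Nat.pos_of_ne_zero h10)
  exact h7.trans (Finset.single_le_sum (f := k) (fun _ _ => Nat.zero_le _) (mem_Irr.2 h))

/-- the number of the irreducible characters of degree `n` -/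
def nd (n : ℕ) (G : Type) [Group G] : ℕ := Nat.card {χ : G → ℂ // IsIrrChar χ ∧ χ 1 = n}

theorem nd_eq (n : ℕ) : nd n G = ((Irr G).filter fun χ => χ 1 = (n : ℂ)).card := by
  unfold nd
  rw [← Nat.card_eq_finsetCard]
  refine Nat.card_congr (Equiv.subtypeEquivRight fun χ => ?_)
  rw [Finset.mem_filter, mem_Irr]

theorem nd_sum {q : ℕ} (hq : q ≠ 1) (h : ∀ χ : G → ℂ, IsIrrChar χ → χ 1 = 1 ∨ χ 1 = q) :
    nd 1 G + q * q * nd q G = Nat.card G := by
  have h1 : ∑ χ ∈ Irr G, χ 1 * χ 1 = ∑ χ ∈ (Irr G).filter (fun χ => χ 1 = ((1 : ℕ) : ℂ)), χ 1 * χ 1 +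
      ∑ χ ∈ (Irr G).filter (fun χ => χ 1 = (q : ℂ)), χ 1 * χ 1 := by
    rw [← Finset.sum_union]
    · refine (Finset.sum_subset (fun χ hχ => ?_) fun χ hχ hn => ?_).symm
      · rw [Finset.mem_union, Finset.mem_filter, Finset.mem_filter] at hχ
        rcases hχ with h | h <;> exact h.1
      · exfalso
        apply hn
        rw [Finset.mem_union, Finset.mem_filter, Finset.mem_filter]
        rcases h χ (mem_Irr.1 hχ) with h2 | h2
        · exact Or.inl ⟨hχ, by rw [h2]; simp⟩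
        · exact Or.inr ⟨hχ, h2⟩
    · rw [Finset.disjoint_filter]
      intro χ _ h2 h3
      rw [h2] at h3
      exact hq (by exact_mod_cast h3.symm)
  rw [sum_sq] at h1
  have h2 : ∑ χ ∈ (Irr G).filter (fun χ => χ 1 = ((1 : ℕ) : ℂ)), χ 1 * χ 1 = (nd 1 G : ℂ) := by
    rw [Finset.sum_congr rfl fun χ hχ => by rw [(Finset.mem_filter.1 hχ).2], nd_eq]
    simp
  have h3 : ∑ χ ∈ (Irr G).filter (fun χ => χ 1 = (q : ℂ)), χ 1 * χ 1 = (q : ℂ) * q * (nd q G : ℂ) := by
    rw [Finset.sum_congr rfl fun χ hχ => by rw [(Finset.mem_filter.1 hχ).2], nd_eq]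
    rw [Finset.sum_const, nsmul_eq_mul]
    ring
  rw [h2, h3] at h1
  exact_mod_cast h1.symm

theorem lin_mul {χ : G → ℂ} (h : IsIrrChar χ) (h1 : χ 1 = 1) (x y : G) :
    χ (x * y) = χ x * χ y := by
  obtain ⟨V, _, _, _, ρ, hr, rfl⟩ := h
  rw [Representation.char_one] at h1
  have h2 : Module.finrank ℂ V = 1 := by exact_mod_cast h1
  obtain ⟨v, hv, hall⟩ := finrank_eq_one_iff'.1 h2
  have h3 : ∀ f : V →ₗ[ℂ] V, f = LinearMap.trace ℂ V f • LinearMap.id := by
    intro f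
    obtain ⟨c, hc⟩ := hall (f v)
    have h4 : f = c • LinearMap.id := by
      ext w
      obtain ⟨d, rfl⟩ := hall w
      rw [map_smul, ← hc, LinearMap.smul_apply, LinearMap.id_apply, smul_comm]
    have h5 : LinearMap.trace ℂ V f = c := by
      rw [h4, map_smul, LinearMap.trace_id, h2]
      simp
    rw [h5]
    exact h4
  change LinearMap.trace ℂ V (ρ (x * y)) = LinearMap.trace ℂ V (ρ x) * LinearMap.trace ℂ V (ρ y)
  rw [map_mul]
  conv_lhs => rw [h3 (ρ x), h3 (ρ y)]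
  rw [smul_mul_smul_comm]
  rw [map_smul]
  have : LinearMap.trace ℂ V (LinearMap.id * LinearMap.id : V →ₗ[ℂ] V) = 1 := by
    change LinearMap.trace ℂ V (LinearMap.id ∘ₗ LinearMap.id) = 1
    rw [LinearMap.comp_id, LinearMap.trace_id, h2]
    simp
  rw [this, smul_eq_mul, mul_one]

end general

section frobenius

variable {Q : ℕ} [Fact Q.Prime] (C : Subgroup (ZMod Q)ˣ)

/-- multiplication by the units in `C` on the additive group of `ZMod Q` -/
def act : C →* MulAut (Multiplicative (ZMod Q)) :=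
  (MulAutMultiplicative (ZMod Q)).symm.toMonoidHom.comp ((AddAut.mulLeft (R := ZMod Q)).comp C.subtype)

theorem act_apply (c : C) (a : Multiplicative (ZMod Q)) :
    act C c a = Multiplicative.ofAdd ((c : (ZMod Q)ˣ) * Multiplicative.toAdd a : ZMod Q) := rfl

/-- the group of the maps `x ↦ c x + a`, `c ∈ C` -/
abbrev Fr : Type := Multiplicative (ZMod Q) ⋊[act C] C

instance : Finite (Fr C) := Finite.of_equiv _ SemidirectProduct.equivProd.symm

theorem card_Fr : Nat.card (Fr C) = Q * Nat.card C := by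
  rw [SemidirectProduct.card]
  congr 1
  rw [Nat.card_congr Multiplicative.toAdd, Nat.card_zmod]

theorem index_Fr : (SemidirectProduct.inl : Multiplicative (ZMod Q) →* Fr C).range.index =
    Nat.card C := by
  have h := (SemidirectProduct.inl : Multiplicative (ZMod Q) →* Fr C).range.card_mul_index
  have h1 : Nat.card (SemidirectProduct.inl : Multiplicative (ZMod Q) →* Fr C).range = Q := by
    rw [← Nat.card_congr (MonoidHom.ofInjective
      (f := (SemidirectProduct.inl : Multiplicative (ZMod Q) →* Fr C))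
      SemidirectProduct.inl_injective).toEquiv, Nat.card_congr Multiplicative.toAdd, Nat.card_zmod]
  rw [h1, card_Fr] at h
  exact Nat.eq_of_mul_eq_mul_left (Fact.out : Q.Prime).pos h

theorem deg_Fr {χ : Fr C → ℂ} (h : IsIrrChar χ) {n : ℕ} (hn : χ 1 = n) : n ≤ Nat.card C := by
  have := Fintype.ofFinite (Fr C)
  rw [← index_Fr C]
  refine deg_le_index _ (fun a b => ?_) h hn
  obtain ⟨_, x, rfl⟩ := a
  obtain ⟨_, y, rfl⟩ := b
  apply Subtype.ext
  change SemidirectProduct.inl x * SemidirectProduct.inl y =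
    SemidirectProduct.inl y * SemidirectProduct.inl x
  rw [← map_mul, ← map_mul, mul_comm]

theorem lin_inl {χ : Fr C → ℂ} (h : IsIrrChar χ) (h1 : χ 1 = 1) {c : C} (hc : c ≠ 1)
    (a : Multiplicative (ZMod Q)) : χ (SemidirectProduct.inl a) = 1 := by
  have := Fintype.ofFinite (Fr C)
  have hm := lin_mul h h1
  have hz : ((c : (ZMod Q)ˣ) : ZMod Q) - 1 ≠ 0 := by
    intro h0
    apply hc
    apply Subtype.ext
    apply Units.ext
    simpa using sub_eq_zero.1 h0
  let b : Multiplicative (ZMod Q) :=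
    Multiplicative.ofAdd ((((c : (ZMod Q)ˣ) : ZMod Q) - 1)⁻¹ * Multiplicative.toAdd a)
  have hb : a * b = act C c b := by
    rw [act_apply]
    apply Multiplicative.toAdd.injective
    change Multiplicative.toAdd a + (((c : (ZMod Q)ˣ) : ZMod Q) - 1)⁻¹ * Multiplicative.toAdd a =
      ((c : (ZMod Q)ˣ) : ZMod Q) * ((((c : (ZMod Q)ˣ) : ZMod Q) - 1)⁻¹ * Multiplicative.toAdd a)
    field_simp
    ring
  have h2 : (SemidirectProduct.inl a : Fr C) * SemidirectProduct.inl b * SemidirectProduct.inr c =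
      SemidirectProduct.inr c * SemidirectProduct.inl b := by
    rw [← map_mul, hb, SemidirectProduct.inl_aut, map_inv, inv_mul_cancel_right]
  have h3 := congrArg χ h2
  rw [hm, hm, hm] at h3
  have hne : ∀ x : Fr C, χ x ≠ 0 := by
    intro x h0
    have := hm x x⁻¹
    rw [mul_inv_cancel, h1, h0, zero_mul] at this
    exact one_ne_zero this
  have h4 := hne (SemidirectProduct.inl b)
  have h5 := hne (SemidirectProduct.inr c)
  apply mul_right_cancel₀ h4
  apply mul_right_cancel₀ h5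
  rw [h3]
  ring

theorem nd_one_Fr (hC : ∃ c : C, c ≠ 1) : nd 1 (Fr C) ≤ Nat.card C := by
  have := Fintype.ofFinite (Fr C)
  obtain ⟨c, hc⟩ := hC
  let _ : CommGroup C := inferInstance
  rw [← CommGroup.card_monoidHom_of_hasEnoughRootsOfUnity C ℂ]
  unfold nd
  have h1 : ∀ χ : {χ : Fr C → ℂ // IsIrrChar χ ∧ χ 1 = ((1 : ℕ) : ℂ)}, χ.1 1 = 1 := fun χ => by
    rw [χ.2.2]; simp
  let f : {χ : Fr C → ℂ // IsIrrChar χ ∧ χ 1 = ((1 : ℕ) : ℂ)} → (C →* ℂˣ) := fun χ =>
    ((({ toFun := χ.1, map_one' := h1 χ, map_mul' := lin_mul χ.2.1 (h1 χ) } : Fr C →* ℂ)).comp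
      (SemidirectProduct.inr : C →* Fr C)).toHomUnits
  refine Nat.card_le_card_of_injective f fun χ ψ h => ?_
  apply Subtype.ext
  funext x
  have h2 : χ.1 (SemidirectProduct.inr x.right) = ψ.1 (SemidirectProduct.inr x.right) := by
    have := congrArg (fun g : C →* ℂˣ => ((g x.right : ℂˣ) : ℂ)) h
    exact this
  have h3 : x = SemidirectProduct.inl x.left * SemidirectProduct.inr x.right :=
    (SemidirectProduct.inl_left_mul_inr_right x).symm
  rw [h3, lin_mul χ.2.1 (h1 χ), lin_mul ψ.2.1 (h1 ψ), lin_inl C χ.2.1 (h1 χ) hc,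
    lin_inl C ψ.2.1 (h1 ψ) hc, h2]

end frobenius

/-- `H` has order `q Q` for primes `q`, `Q` different from `p`; its irreducible characters have the
degrees `1` (`a` of them) and `q` (`b` of them). -/
theorem exists_test (p : ℕ) {q : ℕ} (hq : q.Prime) (M : ℕ) :
    ∃ (Q : ℕ) (H : Type) (_ : Group H) (_ : Finite H), Q.Prime ∧ Q ≠ p ∧ Q ≠ q ∧
      Nat.card H = q * Q ∧ (∀ χ : H → ℂ, IsIrrChar χ → χ 1 = 1 ∨ χ 1 = q) ∧
        M * nd 1 H ≤ nd q H := by
  obtain ⟨Q, hQ, hgt, hmod⟩ := Nat.exists_prime_gt_modEq_one (k := q) (p + q + (M * q * q + 1) * q + 1)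
    hq.ne_zero
  have : Fact Q.Prime := ⟨hQ⟩
  have : Fact q.Prime := ⟨hq⟩
  have hdvd : q ∣ Nat.card (ZMod Q)ˣ := by
    rw [Nat.card_eq_fintype_card, ZMod.card_units]
    exact (Nat.modEq_iff_dvd' hQ.one_lt.le).1 hmod.symm
  obtain ⟨z, hz⟩ := exists_prime_orderOf_dvd_card' q hdvd
  let C := Subgroup.zpowers z
  have hC : Nat.card C = q := by rw [Nat.card_zpowers, hz]
  have hC1 : ∃ c : C, c ≠ 1 := by
    refine ⟨⟨z, Subgroup.mem_zpowers z⟩, fun h => ?_⟩
    have : z = 1 := congrArg Subtype.val h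
    rw [this, orderOf_one] at hz
    exact hq.one_lt.ne hz
  have hdeg : ∀ χ : Fr C → ℂ, IsIrrChar χ → χ 1 = 1 ∨ χ 1 = q := by
    intro χ hχ
    have := Fintype.ofFinite (Fr C)
    obtain ⟨n, hn0, hn⟩ := deg_pos hχ
    have h1 := deg_Fr C hχ hn
    rw [hC] at h1
    have h2 := Pool.Agent.Y63.AWC.deg_dvd hχ hn
    rw [card_Fr, hC] at h2
    have h3 : n ∣ q := by
      refine Nat.Coprime.dvd_of_dvd_mul_left ?_ h2
      refine (Nat.Coprime.symm ((Nat.Prime.coprime_iff_not_dvd hQ).2 fun h => ?_))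
      have := Nat.le_of_dvd hn0 h
      omega
    rcases (Nat.dvd_prime hq).1 h3 with rfl | rfl
    · left; rw [hn]; simp
    · right; exact hn
  refine ⟨Q, Fr C, inferInstance, inferInstance, hQ, by omega, by omega, ?_, hdeg, ?_⟩
  · rw [card_Fr, hC, mul_comm]
  · have := Fintype.ofFinite (Fr C)
    have h1 := nd_one_Fr C hC1
    rw [hC] at h1
    have h2 := nd_sum hq.one_lt.ne' hdeg
    rw [card_Fr, hC] at h2
    by_contra hcon
    push Not at hcon
    have h3 : nd q (Fr C) < M * q := lt_of_lt_of_le hcon (Nat.mul_le_mul_left M h1)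
    have h4 : Q * q < Q * q := by
      calc Q * q = nd 1 (Fr C) + q * q * nd q (Fr C) := h2.symm
        _ ≤ q + q * q * (M * q) := by gcongr
        _ = (M * q * q + 1) * q := by ring
        _ < Q := by omega
        _ ≤ Q * q := Nat.le_mul_of_pos_right Q hq.pos
    exact lt_irrefl _ h4

end Pool.Agent.Q99.RC
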