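import Pool.Agent.Q99.RC.Frob
import Pool.Agent.Q99.AS.Inv

/-!
# Degrees of the irreducible characters of direct products with groups of order `q Q`
-/

set_option autoImplicit false
set_option linter.unusedSectionVars false

open scoped Classical

noncomputable section

namespace Pool.Agent.Q99.RC

open Pool.Agent.Helper884.IC
open Pool.Agent.Q99.AS (ten card_prod ten_irr)
open Pool.Agent.Q90.WR (deg_pos card_transport)

/-- the number of the irreducible characters whose degree has the property `D` -/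
def cd (D : ℕ → Prop) (G : Type) [Group G] : ℕ :=
  Nat.card {χ : G → ℂ // IsIrrChar χ ∧ ∃ n : ℕ, χ 1 = n ∧ D n}

theorem cd_iso {G H : Type} [Group G] [Group H] (e : G ≃* H) (D : ℕ → Prop) : cd D G = cd D H := by
  unfold cd
  rw [card_transport e]
  simp only [map_one]

instance {G : Type} [Group G] [Finite G] (A : (G → ℂ) → Prop) :
    Finite {χ : G → ℂ // IsIrrChar χ ∧ A χ} := by
  have := Fintype.ofFinite G
  exact ((irr_finite (G := G)).subset fun χ h => h.1).to_subtype

theorem cd_prod {G H : Type} [Group G] [Group H] [Finite G] [Finite H] (D : ℕ → Prop) {q : ℕ}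
    (hq : q ≠ 1) (h : ∀ ψ : H → ℂ, IsIrrChar ψ → ψ 1 = 1 ∨ ψ 1 = q) :
    cd D (G × H) = cd D G * nd 1 H + cd (fun n => D (n * q)) G * nd q H := by
  have := Fintype.ofFinite G
  have := Fintype.ofFinite H
  unfold cd nd
  rw [card_prod (Finset.univ : Finset Bool) (fun χ : G × H → ℂ => ∃ n : ℕ, χ 1 = n ∧ D n)
    (fun i θ => ∃ n : ℕ, θ 1 = n ∧ D (n * if i then q else 1))
    (fun i ψ => ψ 1 = ((if i then q else 1 : ℕ) : ℂ))]
  · rw [Fintype.sum_bool]
    simp only [if_true, Bool.false_eq_true, if_false, mul_one]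
    rw [add_comm]
  · intro θ ψ h1 h2
    have e : (ten θ ψ) 1 = θ 1 * ψ 1 := rfl
    rw [e]
    constructor
    · rintro ⟨n, hn, hD⟩
      obtain ⟨m, -, hm⟩ := deg_pos h1
      rcases h ψ h2 with h3 | h3
      · refine ⟨false, Finset.mem_univ _, ⟨m, hm, ?_⟩, by rw [h3]; simp⟩
        have : m * 1 = n := by
          rw [hm, h3] at hn
          exact_mod_cast hn
        simp only [Bool.false_eq_true, if_false]
        rwa [this]
      · refine ⟨true, Finset.mem_univ _, ⟨m, hm, ?_⟩, by rw [h3]; simp⟩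
        have : m * q = n := by
          rw [hm, h3] at hn
          exact_mod_cast hn
        simp only [if_true]
        rwa [this]
    · rintro ⟨i, -, ⟨n, hn, hD⟩, hψ⟩
      exact ⟨_, by rw [hn, hψ]; push_cast; rfl, hD⟩
  · intro θ ψ i _ j _ _ h2 _ h4
    rw [h2] at h4
    have h5 : (if i then q else 1 : ℕ) = if j then q else 1 := by exact_mod_cast h4
    cases i <;> cases j <;> simp_all

theorem triv_irr (G : Type) [Group G] [Finite G] : IsIrrChar (fun _ : G => (1 : ℂ)) := by
  have := Fintype.ofFinite G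
  refine Pool.Agent.Q90.WR.irr_of_norm (fun _ _ => rfl) (fun χ hχ => ?_) ?_ ⟨1, by simp⟩
  · obtain ⟨n, hn⟩ := mult_nat (⊤ : Subgroup G) 1 hχ
    rw [indChar_top] at hn
    exact ⟨n, by rw [Int.cast_natCast]; exact hn⟩
  · unfold B
    rw [Finset.sum_congr rfl fun g _ => mul_one (1 : ℂ), Finset.sum_const, Finset.card_univ,
      ← Nat.card_eq_fintype_card, nsmul_eq_mul, mul_one, inv_mul_cancel₀ (cardG_ne (G := G))]

theorem nd_one_pos (G : Type) [Group G] [Finite G] : 0 < nd 1 G := by
  unfold nd
  rw [Nat.card_pos_iff]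
  exact ⟨⟨⟨fun _ => 1, triv_irr G, by simp⟩⟩, inferInstance⟩

/-- the Sylow subgroup `P × 1` of `G × H` -/
theorem sylow_prod {p : ℕ} [Fact p.Prime] {G H : Type} [Group G] [Group H] [Finite G] [Finite H]
    (P : Sylow p G) (hH : ¬ p ∣ Nat.card H) :
    ∃ S : Sylow p (G × H), Nonempty (Subgroup.normalizer ((S : Subgroup (G × H)) : Set (G × H)) ≃*
      Subgroup.normalizer ((P : Subgroup G) : Set G) × H) := by
  have hc : Nat.card ((P : Subgroup G).prod (⊥ : Subgroup H)) =
      p ^ (Nat.card (G × H)).factorization p := by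
    rw [Pool.Agent.Q99.AS.card_prod', Subgroup.card_bot, mul_one, P.card_eq_multiplicity,
      Nat.card_prod, Nat.factorization_mul Nat.card_pos.ne' Nat.card_pos.ne']
    simp only [Finsupp.add_apply]
    rw [Nat.factorization_eq_zero_of_not_dvd hH, add_zero]
  refine ⟨Sylow.ofCard _ hc, ?_⟩
  have hS : ((Sylow.ofCard _ hc : Sylow p (G × H)) : Subgroup (G × H)) =
      (P : Subgroup G).prod (⊥ : Subgroup H) := rfl
  have hN : Subgroup.normalizer (((P : Subgroup G).prod (⊥ : Subgroup H) : Subgroup (G × H)) :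
      Set (G × H)) = (Subgroup.normalizer ((P : Subgroup G) : Set G)).prod (⊤ : Subgroup H) := by
    ext ⟨g, h⟩
    rw [Subgroup.mem_prod, Subgroup.mem_normalizer_iff, Subgroup.mem_normalizer_iff]
    constructor
    · intro hg
      refine ⟨fun x => ?_, Subgroup.mem_top _⟩
      have := hg (x, 1)
      simpa [Subgroup.mem_prod] using this
    · rintro ⟨hg, -⟩ ⟨x, y⟩
      have := hg x
      simp only [Subgroup.mem_prod, Subgroup.mem_bot, Prod.fst_mul, Prod.snd_mul, Prod.fst_inv,
        Prod.snd_inv]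
      refine and_congr this ?_
      constructor
      · rintro rfl
        simp
      · intro h1
        have h2 : y = h⁻¹ * (h * y * h⁻¹) * h := by group
        rw [h2, h1]
        simp
  rw [hS, hN]
  exact ⟨(Subgroup.prodEquiv _ _).trans (MulEquiv.prodCongr (MulEquiv.refl _) Subgroup.topEquiv)⟩

end Pool.Agent.Q99.RC
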